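import Pool.Agent.W394.BQN.Stm

/-!
Part EIS of project BQN: `V[z]/(z^e - π)` is a local principal ideal domain.
-/

set_option autoImplicit false

open Polynomial

noncomputable section

namespace Pool.Agent.W557.BQN

open Pool.Agent.W394.BQN BQ

theorem t_EIS : S_EIS := by
  intro V _ _ _ _ π hπ e he
  set g : V[X] := X ^ e - C π with hg
  have hmon : g.Monic := monic_X_pow_sub_C π he.ne'
  have hmax : (Ideal.span {π}).IsMaximal :=
    PrincipalIdealRing.isMaximal_of_irreducible hπ.irreducible
  have hdeg : g.natDegree = e := natDegree_X_pow_sub_C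
  have heis : g.IsEisensteinAt (Ideal.span {π}) := by
    refine ⟨?_, ?_, ?_⟩
    · rw [hmon.leadingCoeff]
      intro h1
      exact hmax.ne_top ((Ideal.eq_top_iff_one _).2 h1)
    · intro n hn
      rw [hdeg] at hn
      rw [hg, coeff_sub, coeff_X_pow, if_neg hn.ne, zero_sub, coeff_C]
      split_ifs
      · exact (Ideal.neg_mem_iff _).2 (Ideal.mem_span_singleton_self π)
      · simp
    · rw [hg, coeff_sub, coeff_X_pow, if_neg he.ne, zero_sub, coeff_C_zero, Ideal.neg_mem_iff,
        Ideal.span_singleton_pow, Ideal.mem_span_singleton]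
      intro hdvd
      rw [pow_two] at hdvd
      obtain ⟨c, hc⟩ := hdvd
      have h2 : π * c = 1 := by
        have h3 : π * (π * c) = π * 1 := by rw [mul_one, ← mul_assoc, ← hc]
        exact mul_left_cancel₀ hπ.ne_zero h3
      exact hπ.not_unit (IsUnit.of_mul_eq_one c h2)
  have hirr : Irreducible g := heis.irreducible hmax.isPrime hmon.isPrimitive (by rw [hdeg]; exact he)
  have hprime : Prime g := hirr.prime
  haveI : IsDomain (AdjoinRoot g) := AdjoinRoot.isDomain_of_prime hprime
  haveI hfin : Module.Finite V (AdjoinRoot g) := hmon.finite_adjoinRoot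
  haveI : IsNoetherianRing (AdjoinRoot g) := inferInstance
  have hroot : (AdjoinRoot.root g) ^ e = AdjoinRoot.of g π := by
    have h1 : AdjoinRoot.mk g g = 0 := AdjoinRoot.mk_self
    have h2 : AdjoinRoot.mk g g = (AdjoinRoot.root g) ^ e - AdjoinRoot.of g π := by
      show AdjoinRoot.mk g (X ^ e - C π) = _
      rw [map_sub, map_pow, AdjoinRoot.mk_X, AdjoinRoot.mk_C]
    rw [h1] at h2
    exact (sub_eq_zero.1 h2.symm)
  -- the ideal generated by the root
  let φ : AdjoinRoot g →+* V ⧸ Ideal.span {π} :=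
    AdjoinRoot.lift (Ideal.Quotient.mk (Ideal.span {π})) 0 (by
      rw [hg, eval₂_sub, eval₂_X_pow, eval₂_C, zero_pow he.ne', zero_sub, neg_eq_zero,
        Ideal.Quotient.eq_zero_iff_mem]
      exact Ideal.mem_span_singleton_self π)
  have hφmk : ∀ p : V[X], φ (AdjoinRoot.mk g p) = Ideal.Quotient.mk (Ideal.span {π}) (p.coeff 0) := by
    intro p
    show AdjoinRoot.lift _ _ _ (AdjoinRoot.mk g p) = _
    rw [AdjoinRoot.lift_mk, eval₂_at_zero]
  letI : Field (V ⧸ Ideal.span {π}) := Ideal.Quotient.field _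
  have hsurj : Function.Surjective φ := by
    intro y
    obtain ⟨v, rfl⟩ := Ideal.Quotient.mk_surjective y
    exact ⟨AdjoinRoot.mk g (C v), by rw [hφmk, coeff_C_zero]⟩
  have hker : RingHom.ker φ = Ideal.span {AdjoinRoot.root g} := by
    apply le_antisymm
    · intro w hw
      obtain ⟨p, rfl⟩ := AdjoinRoot.mk_surjective w
      rw [RingHom.mem_ker, hφmk, Ideal.Quotient.eq_zero_iff_mem, Ideal.mem_span_singleton] at hw
      obtain ⟨c, hc⟩ := hw
      rw [← divX_mul_X_add p, map_add, map_mul, AdjoinRoot.mk_X, AdjoinRoot.mk_C, hc, map_mul,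
        ← hroot]
      refine Ideal.add_mem _ (Ideal.mul_mem_left _ _ (Ideal.mem_span_singleton_self _))
        (Ideal.mul_mem_right _ _ (Ideal.pow_mem_of_mem _ (Ideal.mem_span_singleton_self _) _ he))
    · rw [Ideal.span_singleton_le_iff_mem, RingHom.mem_ker, ← AdjoinRoot.mk_X, hφmk, coeff_X_zero,
        map_zero]
  have hmaxz : (Ideal.span {AdjoinRoot.root g}).IsMaximal := by
    rw [← hker]
    exact RingHom.ker_isMaximal_of_surjective φ hsurj
  have hint : (AdjoinRoot.of g).IsIntegral := by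
    have : (algebraMap V (AdjoinRoot g)).IsIntegral := (algebraMap_isIntegral_iff).2 inferInstance
    exact this
  have huniq : ∀ M : Ideal (AdjoinRoot g), M.IsMaximal → M = Ideal.span {AdjoinRoot.root g} := by
    intro M hM
    have h1 : (M.comap (AdjoinRoot.of g)).IsMaximal :=
      Ideal.isMaximal_comap_of_isIntegral_of_isMaximal' _ hint M
    have h2 : M.comap (AdjoinRoot.of g) = Ideal.span {π} := by
      rw [IsLocalRing.eq_maximalIdeal h1, IsLocalRing.eq_maximalIdeal hmax]
    have h3 : π ∈ M.comap (AdjoinRoot.of g) := by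
      rw [h2]; exact Ideal.mem_span_singleton_self π
    have h4 : AdjoinRoot.root g ∈ M := by
      have h5 : (AdjoinRoot.root g) ^ e ∈ M := by rw [hroot]; exact h3
      exact hM.isPrime.mem_of_pow_mem _ h5
    exact (hmaxz.eq_of_le hM.ne_top ((Ideal.span_singleton_le_iff_mem _).2 h4)).symm
  haveI hloc : IsLocalRing (AdjoinRoot g) :=
    IsLocalRing.of_unique_max_ideal ⟨_, hmaxz, huniq⟩
  have hpid : IsPrincipalIdealRing (AdjoinRoot g) := by
    have h1 : (IsLocalRing.maximalIdeal (AdjoinRoot g)).IsPrincipal := by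
      rw [← IsLocalRing.eq_maximalIdeal hmaxz]
      exact ⟨⟨_, rfl⟩⟩
    exact ((tfae_of_isNoetherianRing_of_isLocalRing_of_isDomain (R := AdjoinRoot g)).out 4 0).1 h1
  refine ⟨AdjoinRoot g, inferInstance, inferInstance, hpid, hloc, AdjoinRoot.of g,
    AdjoinRoot.mk g, ?_, AdjoinRoot.mk_surjective, fun c => AdjoinRoot.mk_eq_zero, fun v => rfl⟩
  exact (RingHom.finite_algebraMap (A := V) (B := AdjoinRoot g)).2 hfin

end Pool.Agent.W557.BQN
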