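import Pool.Agent.W394.BQN.Stm2
import Pool.Agent.W771.BQN.TOW

/-!
Part LOCG of project BQN: all local rings are good.
-/

set_option autoImplicit false

open Polynomial

noncomputable section

namespace Pool.Agent.W557.BQN

open Pool.Agent.W394.BQN BQ

/-- `IsLocGood` is invariant under isomorphisms -/
theorem isLocGood_equiv {A B : Type} [CommRing A] [CommRing B] (e : A ≃+* B) (h : IsLocGood B) :
    IsLocGood A := by
  obtain ⟨V, i1, i2, i3, n, D, i4, j, hj, k, q, hq, ⟨e'⟩⟩ := h
  exact ⟨V, i1, i2, i3, n, D, i4, j, hj, k, q, hq, ⟨e.trans e'⟩⟩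

/-- the local rings of `D` as in `GoodN` -/
theorem isLocGood_of_prime {V D : Type} [CommRing V] [IsDomain V] [IsPrincipalIdealRing V]
    [CommRing D] {n : ℕ} {j : V →+* D} (hj : GoodN n V D j) (q : Ideal D) [hq : q.IsPrime] :
    IsLocGood (Localization.AtPrime q) := by
  let e : D ≃+* MvPolynomial (Fin 0) D := (MvPolynomial.isEmptyRingEquiv D (Fin 0)).symm
  let q' : Ideal (MvPolynomial (Fin 0) D) := q.comap (e.symm : MvPolynomial (Fin 0) D →+* D)
  have hq' : q'.IsPrime := Ideal.comap_isPrime _ q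
  have hmap : q.primeCompl.map (e : D →* MvPolynomial (Fin 0) D) = q'.primeCompl := by
    ext s
    constructor
    · rintro ⟨t, ht, rfl⟩ h
      apply ht
      have h1 : e.symm (e t) ∈ q := h
      rwa [e.symm_apply_apply] at h1
    · intro hs
      exact ⟨e.symm s, hs, e.apply_symm_apply s⟩
  exact ⟨V, inferInstance, inferInstance, inferInstance, n, D, inferInstance, j, hj, 0, q', hq',
    ⟨IsLocalization.ringEquivOfRingEquiv (Localization.AtPrime q) (Localization.AtPrime q') e
      hmap⟩⟩

/-- the case of a local principal ideal domain -/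
theorem locg_local (h1 : S_SLA) (h2 : S_SLB) (h4 : S_DVR) (h5 : S_FAC)
    (V : Type) [CommRing V] [IsDomain V] [IsPrincipalIdealRing V] [IsLocalRing V] (u : V[X])
    (hu : u.Monic) (hreg : IsRegularRing (V[X] ⧸ Ideal.span {u})) (n : ℕ)
    (q : Ideal (Semi V[X] u n)) [hq : q.IsPrime] : IsLocGood (Localization.AtPrime q) := by
  by_cases hmem : Q.pr V[X] u n (MvPolynomial.C u) ∈ q
  · let m : Ideal V[X] := q.comap ((Q.pr V[X] u n).comp MvPolynomial.C)
    have hm : m.IsPrime := Ideal.comap_isPrime _ q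
    have hum : u ∈ m := hmem
    obtain ⟨u₁, w, huw, hu₁, hded, hw⟩ := h5 V u hu hreg m hum
    have hw' : Q.pr V[X] u n (MvPolynomial.C w) ∉ q := hw
    clear_value m
    subst huw
    obtain ⟨q', hq', ⟨e⟩⟩ := h1 V[X] u₁ w n q hw'
    obtain ⟨j, hj⟩ := h4 V u₁ hu₁ hded n
    exact isLocGood_equiv e (isLocGood_of_prime hj q')
  · obtain ⟨q', hq', ⟨e⟩⟩ := h2 V[X] u n q hmem
    have h0 : GoodN 0 V V[X] C := Pool.Agent.W771.BQN.base_poly V
    exact ⟨V, inferInstance, inferInstance, inferInstance, 0, V[X], inferInstance, C, h0, n, q',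
      hq', ⟨e⟩⟩

theorem t_LOCG (h1 : S_SLA) (h2 : S_SLB) (h3 : S_SLC) (h4 : S_DVR) (h5 : S_FAC) (h6 : S_RL) :
    S_LOCG := by
  intro V _ _ u hu hreg n q hq
  let p : Ideal V := q.comap (((Q.pr V[X] u n).comp MvPolynomial.C).comp C)
  have hp : p.IsPrime := Ideal.comap_isPrime _ q
  letI : Algebra V[X] (Localization.AtPrime p)[X] :=
    (mapRingHom (algebraMap V (Localization.AtPrime p))).toAlgebra
  haveI : IsLocalization (p.primeCompl.map C) (Localization.AtPrime p)[X] :=
    Polynomial.isLocalization p.primeCompl (Localization.AtPrime p)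
  have hM : ∀ m ∈ p.primeCompl.map (C : V →+* V[X]), Q.pr V[X] u n (MvPolynomial.C m) ∉ q := by
    rintro _ ⟨v, hv, rfl⟩ h
    exact hv h
  obtain ⟨q', hq', -, ⟨e⟩⟩ := h3 V[X] (Localization.AtPrime p)[X] (p.primeCompl.map C) u n q hM
  have hmap : algebraMap V[X] (Localization.AtPrime p)[X] u =
      u.map (algebraMap V (Localization.AtPrime p)) := rfl
  have hdom : IsDomain (Localization.AtPrime p) := inferInstance
  have hpid : IsPrincipalIdealRing (Localization.AtPrime p) := by
    have hD : IsDedekindDomain (Localization.AtPrime p) := inferInstance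
    exact ((tfae_of_isNoetherianRing_of_isLocalRing_of_isDomain
      (R := Localization.AtPrime p)).out 2 0).1 hD
  refine isLocGood_equiv (A := Localization.AtPrime q) (B := Localization.AtPrime q') e ?_
  exact locg_local h1 h2 h4 h5 (Localization.AtPrime p)
    (algebraMap V[X] (Localization.AtPrime p)[X] u) (hu.map _) (h6 V p u hreg) n q'

end Pool.Agent.W557.BQN
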